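import Mathlib.Data.Real.Basic
import Mathlib.Algebra.BigOperators.Fin
import Mathlib.Algebra.Order.BigOperators.Group.Finset
import Mathlib.Data.Fintype.BigOperators
import Mathlib.Data.Fintype.Pi
import Mathlib.Tactic

set_option autoImplicit false

/-!
# MP_e74e46_co : EF1 and Pareto optimality together with balancedness can be impossible

Two agents, eight goods, `u₁ = (4,4,1,1,1,1,1,1)`, `u₂ = (3,3,1,1,1,1,1,1)` and the constant
reference valuation: no allocation is EF1 and PO for the subjective utilities and balanced
(equivalently, EF1 for the reference valuation).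
-/

namespace Pool.Agent.Results.MP_e74e46_co.BothFail

open Finset

/-- The additive extension of the item values `u` to sets of goods. -/
def val {m : ℕ} (u : Fin m → ℝ) (S : Finset (Fin m)) : ℝ := ∑ g ∈ S, u g

/-- The bundle of agent `i` in the allocation `A` of the goods to the agents. -/
def bundle {n m : ℕ} (A : Fin m → Fin n) (i : Fin n) : Finset (Fin m) :=
  univ.filter (fun g => A g = i)

/-- `A` is EF1 with respect to the profile `w`. -/
def EF1 {n m : ℕ} (w : Fin n → Fin m → ℝ) (A : Fin m → Fin n) : Prop :=
  ∀ i j, bundle A j = ∅ ∨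
    ∃ g ∈ bundle A j, val (w i) ((bundle A j).erase g) ≤ val (w i) (bundle A i)

/-- `A` is Pareto optimal with respect to the profile `u`. -/
def PO {n m : ℕ} (u : Fin n → Fin m → ℝ) (A : Fin m → Fin n) : Prop :=
  ¬ ∃ B : Fin m → Fin n, (∀ i, val (u i) (bundle A i) ≤ val (u i) (bundle B i)) ∧
    ∃ i, val (u i) (bundle A i) < val (u i) (bundle B i)

/-- `A` is balanced: every bundle has `⌊m/n⌋` or `⌈m/n⌉` goods. -/
def Balanced {n m : ℕ} (A : Fin m → Fin n) : Prop :=
  ∀ i, (bundle A i).card = m / n ∨ (bundle A i).card = (m + n - 1) / n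

/-- The subjective values of the example. -/
def uN (i : Fin 2) (g : Fin 8) : ℕ := if g < 2 then (if i = 0 then 4 else 3) else 1

/-- The allocation that gives the two large goods to agent `0` and the others to agent `1`. -/
def B0 (g : Fin 8) : Fin 2 := if g < 2 then 0 else 1

lemma val_cast (i : Fin 2) (S : Finset (Fin 8)) :
    val (fun g => (uN i g : ℝ)) S = ((∑ g ∈ S, uN i g : ℕ) : ℝ) := by
  unfold val; push_cast; rfl

/-- The finite check: an allocation with four goods for each agent violates EF1 or is
dominated by `B0`. -/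
lemma check : ∀ A : Fin 8 → Fin 2, (univ.filter (fun g => A g = 0)).card = 4 →
    (∀ i j : Fin 2, (univ.filter (fun g => A g = j)) = ∅ ∨
      ∃ g ∈ univ.filter (fun g => A g = j),
        ∑ h ∈ (univ.filter (fun g => A g = j)).erase g, uN i h
          ≤ ∑ h ∈ univ.filter (fun g => A g = i), uN i h) →
    (∑ h ∈ univ.filter (fun g => A g = 0), uN 0 h
        < ∑ h ∈ univ.filter (fun g => B0 g = 0), uN 0 h) ∧
    (∑ h ∈ univ.filter (fun g => A g = 1), uN 1 h
        ≤ ∑ h ∈ univ.filter (fun g => B0 g = 1), uN 1 h) := by
  decide +kernel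

lemma no_four (A : Fin 8 → Fin 2) (h4 : (bundle A 0).card = 4)
    (hE : EF1 (fun i g => (uN i g : ℝ)) A) (hP : PO (fun i g => (uN i g : ℝ)) A) : False := by
  have h := check A h4 (by
    intro i j
    rcases hE i j with h | ⟨g, hg, h⟩
    · exact Or.inl h
    · refine Or.inr ⟨g, hg, ?_⟩
      rw [val_cast, val_cast] at h
      exact_mod_cast h)
  apply hP
  refine ⟨B0, ?_, 0, ?_⟩
  · intro i
    rw [val_cast, val_cast]
    have h2 : (∑ g ∈ bundle A i, uN i g : ℕ) ≤ ∑ g ∈ bundle B0 i, uN i g := by
      fin_cases i
      · exact h.1.le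
      · exact h.2
    exact_mod_cast h2
  · rw [val_cast, val_cast]
    have h2 : (∑ g ∈ bundle A 0, uN 0 g : ℕ) < ∑ g ∈ bundle B0 0, uN 0 g := h.1
    exact_mod_cast h2

lemma card_add (A : Fin 8 → Fin 2) : (bundle A 0).card + (bundle A 1).card = 8 := by
  have h := card_eq_sum_card_fiberwise (s := (univ : Finset (Fin 8)))
    (t := (univ : Finset (Fin 2))) (f := A) (fun _ _ => mem_coe.2 (mem_univ _))
  rw [Fin.sum_univ_two] at h
  simp only [card_univ, Fintype.card_fin] at h
  unfold bundle
  omega

/-- **Main theorem.**  There are positive subjective utilities of two agents on eight goods and a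
nonnegative (in fact constant) reference valuation such that no allocation is EF1 and PO with
respect to the subjective utilities and EF1 with respect to the reference valuation (Q1), and no
allocation is EF1 and PO with respect to the subjective utilities and balanced (Q2). -/
theorem result :
    ∃ (u : Fin 2 → Fin 8 → ℝ) (v : Fin 8 → ℝ),
      (∀ i g, 0 < u i g) ∧ (∀ g, v g = 1) ∧
      (¬ ∃ A : Fin 8 → Fin 2, EF1 u A ∧ PO u A ∧ EF1 (fun _ => v) A) ∧
      (¬ ∃ A : Fin 8 → Fin 2, EF1 u A ∧ PO u A ∧ Balanced A) := by
  refine ⟨fun i g => (uN i g : ℝ), fun _ => 1, ?_, fun _ => rfl, ?_, ?_⟩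
  · intro i g
    have h : 0 < uN i g := by unfold uN; split_ifs <;> norm_num
    show (0 : ℝ) < (uN i g : ℝ)
    exact_mod_cast h
  · rintro ⟨A, hE, hP, hv⟩
    refine no_four A ?_ hE hP
    have hc := card_add A
    have key : ∀ i j : Fin 2, (bundle A j).card ≤ (bundle A i).card + 1 := by
      intro i j
      rcases hv i j with h | ⟨g, hg, h⟩
      · rw [h]; simp
      · have h1 : ((bundle A j).erase g).card ≤ (bundle A i).card := by
          simp only [val, sum_const, nsmul_eq_mul, mul_one] at h
          exact_mod_cast h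
        rw [card_erase_of_mem hg] at h1
        omega
    have h1 := key 0 1
    have h2 := key 1 0
    omega
  · rintro ⟨A, hE, hP, hb⟩
    refine no_four A ?_ hE hP
    rcases hb 0 with h | h
    · simpa using h
    · simpa using h

end Pool.Agent.Results.MP_e74e46_co.BothFail
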